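import Pool.Agent.H91.HHC

set_option autoImplicit false

open H91.HHC in
theorem Pool.Agent.Results.MP_9b412f_an.Infinite.result :
    ∃ (n m : ℕ) (A : Fin m → Matrix (Fin n) (Fin n) ℝ) (b : Fin m → Fin n → ℝ)
    (c : Fin m → ℝ), 1 ≤ n ∧ 1 ≤ m ∧ (∀ i, (A i).IsSymm) ∧ H91.HHC.HHC A b c ∧
    (H91.HHC.feas A b c).Nonempty ∧ convexHull ℝ (H91.HHC.feas A b c) ≠ Set.univ ∧
    ¬ ∃ (r : ℕ) (l : Fin r → Fin m → ℝ), (∀ j, 0 ≤ l j ∧ l j ≠ 0) ∧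
      convexHull ℝ (H91.HHC.feas A b c) = ⋂ j, H91.HHC.agg A b c (l j) :=
  main
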